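import Mathlib
import Pool.Agent.TH118.ZC.SumMain

/-!
# Product points of `𝒜_g` which are not `ℓ`-Galois special

Let `x` in `𝒜_g(ℚ̄)` be a point such that `A_x = A × B`, a product of principally polarized abelian
varieties over a number field `k`, where `A` is of dimension `g₁` greater than zero and `B` is
arbitrary (or zero).  Let `K` be the algebraic closure of `ℚ_ℓ`, `M = K ⊗ H^1(A)`, `N = K ⊗ H^1(B)`,
`R`, `S` the actions of the Galois group `Γ` of `k`, `ω` the Weil pairing on `M` and `χ` the
(inverse of the) cyclotomic character.  Suppose that `M` is irreducible for all open subgroups of `Γ`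
(this means that all endomorphisms of `A` over `ℚ̄` are integers) and that there is an element `γ` of
`Γ` (in applications: of an inertia group at a place not dividing `ℓ`) which acts trivially on `N`
and with finite order on `M`, in one of the following two ways:

* (`SmallAt`) `γ` has an eigenvalue `a` on `M` with `a ^ 2 = χ(γ)` and another eigenvalue, all other
  eigenvalues are simple, and `c ^ 2 < 2 d`, where `d` is the dimension of the eigenspace for `a`
  and `c` is its codimension;
* (`SplitsIsolated`) the eigenvalues of `γ` on `M` are divided into two nonempty sets, both stable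
  under `α ↦ χ(γ) / α`, such that for `α` in the first and `β` in the second one `α` or `β` is a
  simple eigenvalue, `β / α` is the quotient of no other pair of eigenvalues except the dual
  pair, and triples `α', α' (β / α), α' (β / α) ^ 2` of eigenvalues are self-dual with
  simple outer eigenvalues.

Finally let some element of `Γ` have two eigenvalues on `M` whose quotient is not a root of unity
(`HasHyperbolic`; this is automatic for the Galois representation).

Theorem.  The Zariski closure of the image of `Γ`, or of any subgroup `Δ` of finite index, in
`GL(M) × GL(N)` contains `Sp(M) × 1`.  In other words, it does not change if the image of `Δ` is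
enlarged to any set `𝒢` of pairs `(x, y)` such that `y` is the image of some `g` in `Δ` and `x` is
a similitude with the multiplier `χ(g)`.

Application.  Let `Y` be a closed irreducible subvariety of positive dimension of
`𝒜_{g₁} × {B}`, for instance `𝒜_{g₁} × {B}` itself, which contains `(A, B)`, or rather its image in
`𝒜_g`.  An element `h` of the Galois group of the function field of `Y` (over `k`, or a finite
extension) acts on the cohomology `M × N` of the generic abelian variety by a pair `(x, y)` where
`y = S(g)` and `χ(g)` is the multiplier of `x`, `g` the restriction of `h` to `ℚ̄`; and the group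
of these pairs contains the image of a subgroup `Δ` of finite index of `Γ` (a decomposition group
at `x`).  So the theorem says that `G_{ℓ,Y} = G_{ℓ,x}`, hence `x` is NOT `ℓ`-Galois special.  This
confirms Q1 (each `ℓ`-Galois special point over `ℚ̄` is a CM point) for all these points, which are
not CM points; nothing is assumed on `B`, for which the Mumford-Tate conjecture need not be known.

Example.  `A` is the Jacobian of a curve (for instance a hyperelliptic one), with
endomorphism ring `ℤ`, which at a place `v`, not dividing `ℓ`, of residue characteristic prime to
`2 (2 m + 1)`, has a regular model whose special fibre has exactly one singular point, of type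
`A_{2m}` (`y ^ 2 = x ^ (2 m + 1)`), `m < g₁`; a generator of tame inertia at `v` acts with the
eigenvalue `1` and the simple eigenvalues `-ζ ^ j`, `ζ` of order `2 m + 1`. Or the singular point is
`x ^ p = y ^ q`, `p`, `q` coprime, with `(p - 1) (q - 1) = 2 δ` and `δ ^ 2 + δ < g₁`. And `B` is any
principally polarized abelian variety with good reduction at `v`.

The proof extends that of `MP_bbcdf5_ag.SmallInertiaMonodromy` and
`MP_d61fbb_ag.IsolatedPairsMonodromy` (`N = 0`) to direct sums: in the Lie algebra of the operators on
`M × N` that are compatible with the equivariant multilinear maps to spaces of functions on the group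
all elements preserve `M` and `N`, and the components for the conjugation by `γ` with
eigenvalues different from one are zero on `N`; by irreducibility some of them is not zero on `M`.
-/

namespace Pool.Agent.Results.MP_09799c_ag.ProductPoints

open Module Pool.Agent.W522.U Pool.Agent.TH118.ZC

/-- **The monodromy group of a product is a fibre product.** -/
theorem result {K : Type} [Field K] [CharZero K] [IsAlgClosed K]
    {M : Type} [AddCommGroup M] [Module K M] [FiniteDimensional K M]
    {N : Type} [AddCommGroup N] [Module K N] [FiniteDimensional K N]
    {Γ : Type} [Group Γ] (R : Representation K Γ M) (S : Representation K Γ N) (χ : Γ →* K)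
    (ω : M →ₗ[K] M →ₗ[K] K) (halt : ∀ v, ω v v = 0) (hnondeg : ∀ u, (∀ v, ω u v = 0) → u = 0)
    (hω : ∀ g u v, ω (R g u) (R g v) = χ g * ω u v) (hirr : SI R (⊤ : Submodule K M))
    (hin : ∃ γ : Γ, (∃ k : ℕ, 0 < k ∧ R γ ^ k = 1) ∧ S γ = 1 ∧
      (SmallAt R χ γ ∨ SplitsIsolated R χ γ))
    (hhyp : HasHyperbolic R)
    {ι : Type} [Fintype ι] (b : Basis ι K (M × N)) (Δ : Subgroup Γ) (hΔ : Δ.FiniteIndex)
    (𝒢 : Set (End K M × End K N)) (h1 : ∀ g ∈ Δ, (R g, S g) ∈ 𝒢)
    (h2 : ∀ x ∈ 𝒢, ∃ g ∈ Δ, x.2 = S g ∧ ∀ u v, ω (x.1 u) (x.1 v) = χ g * ω u v) :
    zariskiClosure b ((fun g => (R g).prodMap (S g)) '' Δ) =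
      zariskiClosure b ((fun x => x.1.prodMap x.2) '' 𝒢) :=
  sum_closure b halt hnondeg hω hirr hin hhyp hΔ h1 h2

end Pool.Agent.Results.MP_09799c_ag.ProductPoints
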